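import Pool.Agent.H699.T.Base

/-! # Lower bound by counting crossings -/

set_option autoImplicit false

namespace Pool.Agent.H323.T.LOW

open Finset Classical
open Pool.Agent.H699.T

theorem walk_append {α : Type} (d : α → α → ℝ) (y : α) (t : List α) :
    ∀ (s : List α) (x : α), walk d (x :: (s ++ y :: t)) = walk d (x :: (s ++ [y])) + walk d (y :: t) := by
  intro s
  induction s with
  | nil => intro x; simp [walk]
  | cons b s ih =>
    intro x
    simp only [List.cons_append, walk]
    rw [ih b]; ring

/-- crossing indicator -/
noncomputable def ind {α : Type} (P : α → Prop) (x y : α) : ℝ := if (P x ↔ P y) then 0 else 1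

theorem ind_nonneg {α : Type} (P : α → Prop) (x y : α) : 0 ≤ ind P x y := by
  unfold ind; split_ifs <;> norm_num

theorem walk_ind {α : Type} (P : α → Prop) (y : α) :
    ∀ (m : List α) (x : α), ind P x y ≤ walk (ind P) (x :: (m ++ [y])) := by
  intro m
  induction m with
  | nil => intro x; simp [walk]
  | cons b m ih =>
    intro x
    simp only [List.cons_append, walk]
    have h1 := ih b
    have h2 : ind P x y ≤ ind P x b + ind P b y := by
      unfold ind
      by_cases hx : P x <;> by_cases hb : P b <;> by_cases hy : P y <;> simp [hx, hb, hy]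
    linarith

theorem walk_mono {α : Type} (f g : α → α → ℝ) (X : Finset α) (h : ∀ x ∈ X, ∀ y ∈ X, f x y ≤ g x y) :
    ∀ L : List α, (∀ x ∈ L, x ∈ X) → walk f L ≤ walk g L := by
  intro L
  induction L with
  | nil => intro _; simp [walk]
  | cons a L ih =>
    intro hL
    cases L with
    | nil => simp [walk]
    | cons b L =>
      simp only [walk]
      have h1 := ih (fun x hx => hL x (List.mem_cons_of_mem _ hx))
      have h2 := h a (hL a (by simp)) b (hL b (by simp))
      linarith

theorem walk_mul {α : Type} (f : α → α → ℝ) (β : ℝ) :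
    ∀ L : List α, walk (fun x y => β * f x y) L = β * walk f L := by
  intro L
  induction L with
  | nil => simp [walk]
  | cons a L ih =>
    cases L with
    | nil => simp [walk]
    | cons b L =>
      simp only [walk]
      rw [ih]; ring

theorem walk_sum {α ι : Type} (T : Finset ι) (f : ι → α → α → ℝ) :
    ∀ L : List α, walk (fun x y => ∑ v ∈ T, f v x y) L = ∑ v ∈ T, walk (f v) L := by
  intro L
  induction L with
  | nil => simp [walk]
  | cons a L ih =>
    cases L with
    | nil => simp [walk]
    | cons b L =>
      simp only [walk]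
      rw [ih, Finset.sum_add_distrib]

theorem two_le {α : Type} (P : α → Prop) (a : α) (l : List α)
    (h : ∃ x ∈ l, ¬ (P a ↔ P x)) : 2 ≤ walk (ind P) (a :: (l ++ [a])) := by
  obtain ⟨x, hx, hP⟩ := h
  obtain ⟨s, t, rfl⟩ := List.append_of_mem hx
  have e : (s ++ x :: t) ++ [a] = s ++ x :: (t ++ [a]) := by simp
  rw [e, walk_append (ind P) x (t ++ [a]) s a]
  have h1 := walk_ind P x s a
  have h2 := walk_ind P a t x
  have h3 : ind P a x = 1 := by unfold ind; rw [if_neg hP]
  have h4 : ind P x a = 1 := by unfold ind; rw [if_neg (fun h => hP h.symm)]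
  linarith

theorem t_LOW : S_TSPATT → S_LOW := by
  intro hatt α d hd X ch w Z D β hw hX hD
  obtain ⟨l, -, hlX, hcyc⟩ := hatt α d hd X
  rw [← hcyc]
  cases l with
  | nil =>
    have hX0 : X = ∅ := by rw [← hlX]; simp
    have hD0 : D = ∅ := by
      apply Finset.eq_empty_of_forall_notMem
      intro v hv
      obtain ⟨⟨x, hx, -⟩, -⟩ := hD v hv
      rw [hX0] at hx; simp at hx
    simp [hD0, cyc]
  | cons a l =>
    have hmem : ∀ x, x ∈ X ↔ x ∈ a :: l := by
      intro x; rw [← hlX]; simp
    have haX : a ∈ X := (hmem a).2 (by simp)
    set L : List α := a :: (l ++ [a]) with hL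
    have hLX : ∀ x ∈ L, x ∈ X := by
      intro x hx
      rw [hmem]
      simp only [hL, List.mem_cons, List.mem_append, List.mem_nil_iff, or_false] at hx ⊢
      tauto
    have e1 : walk (fun x y => ∑ v ∈ D \ Z, w v * ind (fun z => v ∈ ch z) x y) L
        ≤ walk (fun x y => β * d x y) L := by
      apply walk_mono _ _ X _ L hLX
      intro x hx y hy
      refine le_trans ?_ (hX x hx y hy)
      have : ∀ v ∈ D \ Z, w v * ind (fun z => v ∈ ch z) x y
          = if v ∈ symmDiff (ch x) (ch y) then w v else 0 := by
        intro v _
        unfold ind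
        by_cases h1 : v ∈ ch x <;> by_cases h2 : v ∈ ch y <;>
          simp [Finset.mem_symmDiff, h1, h2]
      rw [Finset.sum_congr rfl this, ← Finset.sum_filter]
      apply Finset.sum_le_sum_of_subset_of_nonneg
      · intro v hv
        simp only [Finset.mem_filter, Finset.mem_sdiff] at hv ⊢
        exact ⟨hv.2, hv.1.2⟩
      · intro v _ _; exact hw v
    rw [walk_mul, walk_sum] at e1
    have e2 : 2 * ∑ v ∈ D \ Z, w v ≤ ∑ v ∈ D \ Z, walk (fun x y => w v * ind (fun z => v ∈ ch z) x y) L := by
      rw [Finset.mul_sum]
      apply Finset.sum_le_sum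
      intro v hv
      rw [walk_mul]
      have h2 : 2 ≤ walk (ind (fun z => v ∈ ch z)) L := by
        apply two_le
        obtain ⟨⟨x, hx, hvx⟩, y, hy, hvy⟩ := hD v (Finset.mem_sdiff.1 hv).1
        by_cases ha : v ∈ ch a
        · refine ⟨y, ?_, ?_⟩
          · have := (hmem y).1 hy
            simp only [List.mem_cons] at this
            rcases this with h | h
            · subst h; exact absurd ha hvy
            · exact h
          · simp [ha, hvy]
        · refine ⟨x, ?_, ?_⟩
          · have := (hmem x).1 hx
            simp only [List.mem_cons] at this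
            rcases this with h | h
            · subst h; exact absurd hvx ha
            · exact h
          · simp [ha, hvx]
      have := mul_le_mul_of_nonneg_left h2 (hw v)
      linarith
    have e3 : cyc d (a :: l) = walk d L := rfl
    rw [e3]
    linarith

end Pool.Agent.H323.T.LOW
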