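import Pool.Agent.H699.T.Prob

/-! # Concentration for random subsets -/

set_option autoImplicit false

namespace Pool.Agent.H323.T.P2

open Finset Classical
open Pool.Agent.H699.T

theorem exp_le_quad (y : ℝ) (h : |y| ≤ 1) : Real.exp y ≤ 1 + y + y ^ 2 := by
  have := Real.abs_exp_sub_one_sub_id_le h
  have := (abs_le.1 this).2
  linarith

theorem sum_factor {q : ℕ} (hq : 1 ≤ q) (a : ℝ) :
    ∑ i : Fin q, (if (i : ℕ) = 0 then a else 1) = (q - 1) + a := by
  obtain ⟨m, rfl⟩ : ∃ m, q = m + 1 := ⟨q - 1, by omega⟩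
  rw [Fin.sum_univ_succ]
  simp
  ring

theorem moment (N q : ℕ) (hq : 1 ≤ q) (h : Fin N → ℝ) :
    ∑ ω : Fin N → Fin q, Real.exp (∑ v ∈ zs ω, h v) = ∏ v, ((q - 1 : ℝ) + Real.exp (h v)) := by
  have e1 : ∀ ω : Fin N → Fin q, Real.exp (∑ v ∈ zs ω, h v)
      = ∏ v, (if (ω v : ℕ) = 0 then Real.exp (h v) else 1) := by
    intro ω
    unfold zs
    rw [Real.exp_sum, Finset.prod_filter]
  rw [Finset.sum_congr rfl (fun ω _ => e1 ω)]
  have := Finset.prod_univ_sum (fun _ : Fin N => (univ : Finset (Fin q)))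
    (fun v i => if (i : ℕ) = 0 then Real.exp (h v) else 1)
  rw [Fintype.piFinset_univ] at this
  rw [← this]
  apply Finset.prod_congr rfl
  intro v _
  exact sum_factor hq _

theorem t_CONC : S_CONC := by
  intro N q hq g F ε hF hg hε hεF
  set lam : ℝ := ε / (2 * F ^ 2) with hlam
  have hlam0 : 0 < lam := by positivity
  have hq0 : (0 : ℝ) < q := by exact_mod_cast hq
  have hq1 : (1 : ℝ) ≤ q := by exact_mod_cast hq
  have hlF : lam * F ≤ 1 / 2 := by
    rw [hlam]
    rw [div_mul_eq_mul_div, div_le_div_iff₀ (by positivity) (by norm_num)]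
    nlinarith
  have hb : ∀ v, |lam * g v| ≤ 1 := by
    intro v
    rw [abs_mul, abs_of_pos hlam0]
    have := mul_le_mul_of_nonneg_left (hg v) hlam0.le
    linarith
  set c : ℝ := (∑ v, g v) / q + ε * N with hc
  -- Markov
  have h1 : pr (fun ω : Fin N → Fin q => c ≤ ∑ v ∈ zs ω, g v)
      ≤ Real.exp (- (lam * c)) * ((∑ ω : Fin N → Fin q, Real.exp (∑ v ∈ zs ω, lam * g v))
        / Fintype.card (Fin N → Fin q)) := by
    unfold pr ex
    rw [← mul_div_assoc]
    apply div_le_div_of_nonneg_right _ (by positivity)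
    rw [Finset.mul_sum]
    apply Finset.sum_le_sum
    intro ω _
    rw [← Real.exp_add, ← Finset.mul_sum]
    split_ifs with h
    · apply Real.one_le_exp
      have := mul_le_mul_of_nonneg_left h hlam0.le
      linarith
    · exact (Real.exp_pos _).le
  refine h1.trans ?_
  rw [moment N q hq]
  have hcard : ((Fintype.card (Fin N → Fin q) : ℕ) : ℝ) = ∏ _v : Fin N, (q : ℝ) := by
    simp
  rw [hcard, ← Finset.prod_div_distrib]
  have h2 : ∀ v : Fin N, ((q - 1 : ℝ) + Real.exp (lam * g v)) / q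
      ≤ Real.exp ((lam * g v + lam ^ 2 * F ^ 2) / q) := by
    intro v
    have h3 := exp_le_quad _ (hb v)
    have h4 : (lam * g v) ^ 2 ≤ lam ^ 2 * F ^ 2 := by
      rw [mul_pow]
      apply mul_le_mul_of_nonneg_left _ (by positivity)
      exact sq_le_sq' (by linarith [(abs_le.1 (hg v)).1]) (abs_le.1 (hg v)).2
    have h5 := Real.add_one_le_exp ((lam * g v + lam ^ 2 * F ^ 2) / q)
    refine le_trans ?_ h5
    rw [div_le_iff₀ hq0, add_mul, div_mul_cancel₀ _ hq0.ne']
    linarith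
  have h6 : ∏ v : Fin N, (((q - 1 : ℝ) + Real.exp (lam * g v)) / q)
      ≤ Real.exp (∑ v : Fin N, (lam * g v + lam ^ 2 * F ^ 2) / q) := by
    rw [Real.exp_sum]
    apply Finset.prod_le_prod
    · intro v _
      apply div_nonneg _ hq0.le
      have := Real.exp_pos (lam * g v)
      linarith
    · intro v _; exact h2 v
  refine (mul_le_mul_of_nonneg_left h6 (Real.exp_pos _).le).trans ?_
  rw [← Real.exp_add]
  apply Real.exp_le_exp.2
  rw [← Finset.sum_div, Finset.sum_add_distrib, ← Finset.mul_sum, Finset.sum_const, Finset.card_univ,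
    Fintype.card_fin, nsmul_eq_mul, hc]
  have h7 : lam ^ 2 * F ^ 2 * N / q ≤ lam ^ 2 * F ^ 2 * N := by
    rw [div_le_iff₀ hq0]
    have : 0 ≤ lam ^ 2 * F ^ 2 * N := by positivity
    nlinarith
  have h8 : -(lam * ((∑ v, g v) / q + ε * N)) + (lam * ∑ v, g v + N * (lam ^ 2 * F ^ 2)) / q
      = - (lam * ε * N) + lam ^ 2 * F ^ 2 * N / q := by
    field_simp
    ring
  rw [h8]
  have h9 : - (lam * ε * N) + lam ^ 2 * F ^ 2 * N = -(ε ^ 2 * N / (4 * F ^ 2)) := by
    rw [hlam]
    field_simp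
    ring
  linarith

end Pool.Agent.H323.T.P2
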